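import Pool.Agent.H17.SQA.Stmts

/-!
Row MON of the board `sqa`.
-/

set_option autoImplicit false

namespace Pool.SQA

open Finset Pool.CST Filter Topology

theorem mon_fact (m D : ℕ) : D.factorial * mon (m + 1) D = (m + 1).ascFactorial D := by
  unfold mon
  rw [Nat.ascFactorial_eq_factorial_mul_choose, Nat.add_sub_cancel,
    ← Nat.choose_symm_add (a := D) (b := m), add_comm D m]

theorem mon_lower (n D : ℕ) (hn : 1 ≤ n) : (n : ℝ) ^ D ≤ D.factorial * (mon n D : ℝ) := by
  obtain ⟨m, rfl⟩ : ∃ m, n = m + 1 := ⟨n - 1, by omega⟩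
  have h := Nat.pow_succ_le_ascFactorial (m + 1) D
  rw [← mon_fact] at h
  have h2 : (m + 1) ^ D ≤ D.factorial * mon (m + 1) D := h
  exact_mod_cast h2

theorem mon_upper (n D : ℕ) (hn : 1 ≤ n) :
    (D.factorial : ℝ) * (mon n D : ℝ) ≤ ((n : ℝ) + D) ^ D := by
  obtain ⟨m, rfl⟩ : ∃ m, n = m + 1 := ⟨n - 1, by omega⟩
  have h : (m + 1).ascFactorial D ≤ (m + 1 + D) ^ D := by
    rcases Nat.eq_zero_or_pos D with h0 | h0
    · subst h0; simp
    · refine (Nat.ascFactorial_le_pow_add m D).trans ?_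
      exact Nat.pow_le_pow_left (by omega) _
  rw [← mon_fact] at h
  exact_mod_cast h

/-- ROW MON -/
theorem t_mon : MONStmt := by
  intro D
  have hF : (0 : ℝ) < D.factorial := by exact_mod_cast D.factorial_pos
  have h1 : Tendsto (fun n : ℕ => (1 + (D : ℝ) / (n : ℝ)) ^ D / (D.factorial : ℝ)) atTop
      (𝓝 ((1 + 0) ^ D / (D.factorial : ℝ))) :=
    ((tendsto_const_nhds.add (tendsto_const_div_atTop_nhds_zero_nat (D : ℝ))).pow D).div_const _
  rw [add_zero, one_pow] at h1
  refine tendsto_of_tendsto_of_tendsto_of_le_of_le' tendsto_const_nhds h1 ?_ ?_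
  · filter_upwards [eventually_ge_atTop 1] with n hn
    have hn0 : (0 : ℝ) < n := by exact_mod_cast hn
    rw [div_le_div_iff₀ hF (pow_pos hn0 D), one_mul, mul_comm]
    exact mon_lower n D hn
  · filter_upwards [eventually_ge_atTop 1] with n hn
    have hn0 : (0 : ℝ) < n := by exact_mod_cast hn
    rw [div_le_div_iff₀ (pow_pos hn0 D) hF]
    have h2 : (1 + (D : ℝ) / n) ^ D * (n : ℝ) ^ D = ((n : ℝ) + D) ^ D := by
      rw [← mul_pow]
      congr 1
      field_simp
    rw [h2, mul_comm]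
    exact mon_upper n D hn

end Pool.SQA
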